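import Pool.Agent.Y979.HV.Main

/-!
# Tightness of the deviation of geodesics in the hyperbolic Poisson-Voronoi graph

For every intensity `lam > 0` and every homogeneous Poisson process of intensity `lam` on the
hyperbolic plane, the Voronoi graph is almost surely connected, and the maximal graph distance
`D_r` between the cell of the origin and a geodesic joining the cells of `-r` and `r` is a tight
family for `0 ≤ r < 1`: the supremum over `r` of `P (D_r > M)` tends to `0` as `M` tends to
infinity. Even the probability that `D_r > M` for some `r` tends to `0`.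
-/

set_option autoImplicit false

namespace Pool.Agent.Results.MP_80c3a1_pr.GeodesicsTight

open MeasureTheory UpperHalfPlane Pool.Agent.Y979.HV

theorem result {Ω : Type*} [MeasurableSpace Ω] (P : Measure Ω) [IsProbabilityMeasure P]
    (lam : ℝ) (hlam : 0 < lam) (Q : Ω → Set ℍ) (hQ : IsPoissonProcess P lam Q) :
    (∀ᵐ ω ∂P, (voronoiGraph (Q ω)).Connected ∧ ∀ z : ℍ, ∃ x ∈ Q ω, z ∈ cell (Q ω) x) ∧
    Filter.Tendsto (fun M : ℕ => ⨆ r ∈ Set.Ico (0 : ℝ) 1,
      P {ω | (M : ℕ∞) < deviation (Q ω) r}) Filter.atTop (nhds 0) ∧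
    Filter.Tendsto (fun M : ℕ => P {ω | ∃ r ∈ Set.Ico (0 : ℝ) 1,
      (M : ℕ∞) < deviation (Q ω) r}) Filter.atTop (nhds 0) :=
  ⟨ae_connected hQ hlam, tight hQ hlam, tight_uniform hQ hlam⟩

end Pool.Agent.Results.MP_80c3a1_pr.GeodesicsTight
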